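import Pool.Agent.helper75.HT.FullSup

/-!
# MP_a22eb9_an: loglog bound for the maximal hyperbolic cross multipliers

For every Schwartz function `η0` on the line there is a constant `C` such that for every finite set `Λ` of
integers the maximal operator `sup_{k ∈ Λ} |F⁻¹[η0(4^k ξ1 ξ2) F f]|` has `L²(ℝ²)` norm at most
`(C (1 + log (1 + log |Λ|))^10)^(1/2)`, and the full supremum over all integers `k` is bounded on `L²(ℝ²)` after
division by the weight `(1 + log (1 + log (1 + |k|)))^6`.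
-/

set_option autoImplicit false

open MeasureTheory

namespace Pool.Agent.Results.MP_a22eb9_an.LogLogPlane

/-- The operator with multiplier `η0(4^k ξ1 ξ2)`. -/
noncomputable def T (η0 : SchwartzMap ℝ ℂ) (k : ℤ) (f : ℝ × ℝ → ℂ) (x : ℝ × ℝ) : ℂ :=
  ∫ ξ : ℝ × ℝ,
    Complex.exp (2 * (Real.pi : ℂ) * Complex.I * (((x.1 * ξ.1 + x.2 * ξ.2 : ℝ)) : ℂ)) *
      η0 ((4 : ℝ) ^ k * ξ.1 * ξ.2) *
      ∫ y : ℝ × ℝ,
        Complex.exp (-(2 * (Real.pi : ℂ) * Complex.I * (((y.1 * ξ.1 + y.2 * ξ.2 : ℝ)) : ℂ))) * f y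

theorem T_eq (η0 : SchwartzMap ℝ ℂ) (k : ℤ) (f : ℝ × ℝ → ℂ) (x : ℝ × ℝ) :
    T η0 k f x = Pool.Agent.helper75.HT.Tk η0 k f x := by
  simp only [T, Pool.Agent.helper75.HT.Tk, Pool.Agent.helper75.HT.IFT, Pool.Agent.helper75.HT.FT,
    mul_assoc]

theorem result (η0 : SchwartzMap ℝ ℂ) :
    ∃ C : ℝ, ∀ f : SchwartzMap (ℝ × ℝ) ℂ,
      (∀ Λ : Finset ℤ,
        ∫⁻ x : ℝ × ℝ, (⨆ k ∈ Λ, ‖T η0 k f x‖ₑ) ^ 2 ≤
          ENNReal.ofReal (C * (1 + Real.log (1 + Real.log Λ.card)) ^ 10) *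
            ∫⁻ x : ℝ × ℝ, ‖f x‖ₑ ^ 2) ∧
      ∫⁻ x : ℝ × ℝ, (⨆ k : ℤ, ‖T η0 k f x‖ₑ /
          ENNReal.ofReal ((1 + Real.log (1 + Real.log (1 + |(k : ℝ)|))) ^ 6)) ^ 2 ≤
        ENNReal.ofReal C * ∫⁻ x : ℝ × ℝ, ‖f x‖ₑ ^ 2 := by
  obtain ⟨C, hC, h⟩ := Pool.Agent.helper75.HT.main η0
  obtain ⟨C', hC', h'⟩ := Pool.Agent.helper75.HT.full_sup η0
  simp only [T_eq]
  refine ⟨max C C', fun f => ⟨fun Λ => ?_, ?_⟩⟩
  · refine (h Λ f).trans (mul_le_mul_left (ENNReal.ofReal_le_ofReal ?_) _)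
    exact mul_le_mul_of_nonneg_right (le_max_left C C')
      ((by decide : Even 10).pow_nonneg _)
  · exact (h' f).trans (mul_le_mul_left (ENNReal.ofReal_le_ofReal (le_max_right C C')) _)

end Pool.Agent.Results.MP_a22eb9_an.LogLogPlane
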